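import Mathlib
import Pool.Agent.Q36.ConicUpper
import Pool.Agent.Q36.ConicLower

open scoped LinearAlgebra.Projectivization

namespace Pool.Agent.Results.MP_cd75ba_ag.ConicThreshold

open Q36.Conic

/-- The threshold `d₀` equals fifteen. -/
theorem result :
    IsLeast {n : ℕ | 0 < n ∧ ∀ d : ℕ, n ≤ d → ∀ C : Set (ℙ ℂ (Fin 6 → ℂ)),
      IsConic C → C ⊆ Xd d → Degenerate C} 15 := by
  constructor
  · exact ⟨by norm_num, fun d hd C hC hX => upper d hd C hC hX⟩
  · rintro n ⟨_, hn⟩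
    by_contra hlt
    obtain ⟨C, hC, hX, hD⟩ := lower
    exact hD (hn 14 (by omega) C hC hX)

end Pool.Agent.Results.MP_cd75ba_ag.ConicThreshold
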